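import Pool.Agent.H30.VM.TargetsF
import Pool.Agent.H1.CI.TRT

/-!
# MP_70ba79_ag: row TRT of the board `vmp_modules`: lines which are not exceptional
-/

set_option autoImplicit false

namespace Pool.Agent.H18.VMP

open MvPolynomial SC Pool.Agent.H27.LV Pool.Agent.H17.VG Pool.Agent.H30.VM
open Pool.Agent.H17.CI (Tup IlT PQT TxT frmT upT RatT)
open Pool.Agent.H1.CI (dvd_lin lin_ne_zero natDegree_lin)

section

variable {L : Type} [Field L]

/-- divisors of products of powers of two linear polynomials -/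
lemma dvd_lin2 {f : Polynomial L} {α β c : L} {a b : ℕ} (hc : c ≠ 0)
    (h : f ∣ Polynomial.C c * (1 + Polynomial.C α * Polynomial.X) ^ a *
      (1 + Polynomial.C β * Polynomial.X) ^ b) :
    ∃ a' b' : ℕ, f = Polynomial.C (f.coeff 0) * (1 + Polynomial.C α * Polynomial.X) ^ a' *
      (1 + Polynomial.C β * Polynomial.X) ^ b' := by
  obtain ⟨f1, f2, h1, h2, rfl⟩ := exists_dvd_and_dvd_of_dvd_mul h
  obtain ⟨a', ha'⟩ := dvd_lin hc h1
  have h3 : f2 ∣ Polynomial.C 1 * (1 + Polynomial.C β * Polynomial.X) ^ b := by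
    rwa [Polynomial.C_1, one_mul]
  obtain ⟨b', hb'⟩ := dvd_lin one_ne_zero h3
  refine ⟨a', b', ?_⟩
  rw [Polynomial.mul_coeff_zero, Polynomial.C_mul]
  calc f1 * f2 = (Polynomial.C (f1.coeff 0) * (1 + Polynomial.C α * Polynomial.X) ^ a') *
        (Polynomial.C (f2.coeff 0) * (1 + Polynomial.C β * Polynomial.X) ^ b') := by
        rw [← ha', ← hb']
    _ = _ := by ring

/-- the degree of a product of powers of two linear polynomials -/
lemma natDegree_lin2 {α β c : L} (hc : c ≠ 0) (hα : α ≠ 0) (hβ : β ≠ 0) (a b : ℕ) :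
    (Polynomial.C c * (1 + Polynomial.C α * Polynomial.X) ^ a *
      (1 + Polynomial.C β * Polynomial.X) ^ b).natDegree = a + b := by
  rw [mul_assoc, Polynomial.natDegree_C_mul hc,
    Polynomial.natDegree_mul (pow_ne_zero _ (lin_ne_zero α)) (pow_ne_zero _ (lin_ne_zero β)),
    Polynomial.natDegree_pow, Polynomial.natDegree_pow, natDegree_lin hα,
    natDegree_lin hβ, mul_one, mul_one]

/-- one linear polynomial: the exponent is at most the degree -/
lemma one_lin {f : Polynomial L} {β c : L} {b d : ℕ} (hc : c ≠ 0) (hd : f.natDegree ≤ d)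
    (h : f = Polynomial.C c * (1 + Polynomial.C β * Polynomial.X) ^ b) :
    ∃ b' : ℕ, b' ≤ d ∧ f = Polynomial.C c * (1 + Polynomial.C β * Polynomial.X) ^ b' := by
  by_cases hβ : β = 0
  · refine ⟨0, Nat.zero_le _, ?_⟩
    rw [h, hβ]
    simp
  · refine ⟨b, ?_, h⟩
    rw [h, Polynomial.natDegree_C_mul hc, Polynomial.natDegree_pow, natDegree_lin hβ,
      mul_one] at hd
    exact hd

end

theorem pf_TRT : T_TRT := by
  intro K _ _ n ι _ _ e Z F x y hF hI hZ hEx
  by_contra hcon
  push Not at hcon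
  obtain ⟨hres, α, β, a, b, hab, heq⟩ := hcon
  apply hEx
  refine ⟨hres, α, β, ?_⟩
  let A := algebraMap K (AlgebraicClosure K)
  obtain ⟨P, hP⟩ : ∃ P : ι → Polynomial (AlgebraicClosure K),
      P = fun i => (res x y (F i)).map A := ⟨_, rfl⟩
  obtain ⟨c, hc⟩ : ∃ c : AlgebraicClosure K,
      c = A (eval x (∏ i ∈ Finset.univ \ Z, F i)) := ⟨_, rfl⟩
  have hprod : (res x y (∏ i ∈ Finset.univ \ Z, F i)).map A = ∏ i ∈ Finset.univ \ Z, P i := by
    unfold res
    rw [map_prod, Polynomial.map_prod, hP]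
    rfl
  have hc0 : c ≠ 0 := by
    rw [hc, Ne, map_eq_zero, map_prod]
    refine Finset.prod_ne_zero_iff.2 fun i hi => ?_
    intro h
    exact (Finset.mem_sdiff.1 hi).2 ((hZ i).1 h)
  rw [hprod, ← hc] at heq
  have hci : ∀ i, i ∉ Z → A (eval x (F i)) ≠ 0 := by
    intro i hi
    rw [Ne, map_eq_zero, hZ i]
    exact hi
  have hdeg : ∀ i, (P i).natDegree ≤ e i + 1 := by
    intro i
    rw [hP]
    refine (Polynomial.natDegree_map_le).trans ?_
    exact Pool.Agent.H52.VG.res_natDegree x y (hF i)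
  have hcoef : ∀ i, (P i).coeff 0 = A (eval x (F i)) := by
    intro i
    rw [hP]
    simp only
    rw [Polynomial.coeff_map, Pool.Agent.H52.VG.res_coeff_zero]
  have hex : ∀ i, i ∉ Z → ∃ a' b' : ℕ, P i = Polynomial.C (A (eval x (F i))) *
      (1 + Polynomial.C α * Polynomial.X) ^ a' * (1 + Polynomial.C β * Polynomial.X) ^ b' := by
    intro i hi
    have hd : P i ∣ ∏ i ∈ Finset.univ \ Z, P i :=
      Finset.dvd_prod_of_mem _ (Finset.mem_sdiff.2 ⟨Finset.mem_univ _, hi⟩)
    rw [heq] at hd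
    have := dvd_lin2 hc0 hd
    rwa [hcoef] at this
  have goal : ∀ i, i ∉ Z → ∃ a' b' : ℕ, a' + b' = e i + 1 ∧
      P i = Polynomial.C (A (eval x (F i))) *
      (1 + Polynomial.C α * Polynomial.X) ^ a' * (1 + Polynomial.C β * Polynomial.X) ^ b' := by
    by_cases hα : α = 0
    · intro i hi
      obtain ⟨a', b', h⟩ := hex i hi
      rw [hα, Polynomial.C_0, zero_mul, add_zero, one_pow, mul_one] at h
      obtain ⟨b'', hb, h'⟩ := one_lin (hci i hi) (hdeg i) h
      refine ⟨e i + 1 - b'', b'', by omega, ?_⟩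
      rw [h', hα, Polynomial.C_0, zero_mul, add_zero, one_pow, mul_one]
    by_cases hβ : β = 0
    · intro i hi
      obtain ⟨a', b', h⟩ := hex i hi
      rw [hβ, Polynomial.C_0, zero_mul, add_zero, one_pow, mul_one] at h
      obtain ⟨b'', hb, h'⟩ := one_lin (hci i hi) (hdeg i) h
      refine ⟨b'', e i + 1 - b'', by omega, ?_⟩
      rw [h', hβ, Polynomial.C_0, zero_mul, add_zero, one_pow, mul_one]
    · -- all degrees are maximal
      have hne : ∀ i ∈ Finset.univ \ Z, P i ≠ 0 := by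
        intro i hi h0
        have h1 := hcoef i
        rw [h0, Polynomial.coeff_zero] at h1
        exact hci i (Finset.mem_sdiff.1 hi).2 h1.symm
      have h1 := congrArg Polynomial.natDegree heq
      rw [natDegree_lin2 hc0 hα hβ, Polynomial.natDegree_prod _ _ hne, hab] at h1
      have h2 := (Finset.sum_eq_sum_iff_of_le (fun i _ => hdeg i)).1 h1
      intro i hi
      obtain ⟨a', b', h⟩ := hex i hi
      refine ⟨a', b', ?_, h⟩
      have h3 := h2 i (Finset.mem_sdiff.2 ⟨Finset.mem_univ _, hi⟩)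
      rw [h, natDegree_lin2 (hci i hi) hα hβ] at h3
      exact h3
  intro i hi
  obtain ⟨a', b', h1, h2⟩ := goal i hi
  refine ⟨a', b', h1, ?_⟩
  rw [hP] at h2
  exact h2

end Pool.Agent.H18.VMP
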