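import Pool.Agent.H30.VM.TargetsG
import Pool.Agent.H49.CI.XMT

/-!
# MP_70ba79_ag: row XMT of the board `vmp_modules`: dimension count

No exceptional lines through general points.
-/

set_option autoImplicit false

namespace Pool.Agent.H18.VMP

open MvPolynomial SC Pool.Agent.H27.LV Pool.Agent.H17.VG Pool.Agent.H30.VM
open Pool.Agent.H17.CI (Tup IlT PQT TxT frmT upT RatT)
open Pool.Agent.H49.CI (ratD pD_pow pD_one coeff_frm cD_frm card_le_of_mem)

section
variable {L : Type} [Field L]

/-- the derivation applied to a product of powers -/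
theorem pD_exc2 {R : Type} [Field R] [Algebra R L] (θ : Derivation R L L) (f α β : L)
    (a b : ℕ) :
    pD θ (Polynomial.C f * (1 + Polynomial.C α * Polynomial.X) ^ a *
        (1 + Polynomial.C β * Polynomial.X) ^ b) =
      Polynomial.C (θ f) * ((1 + Polynomial.C α * Polynomial.X) ^ a *
        (1 + Polynomial.C β * Polynomial.X) ^ b) +
      (Polynomial.C (θ α) * (Polynomial.C f * (a : Polynomial L) * Polynomial.X *
        (1 + Polynomial.C α * Polynomial.X) ^ (a - 1) *
        (1 + Polynomial.C β * Polynomial.X) ^ b) +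
      Polynomial.C (θ β) * (Polynomial.C f * (b : Polynomial L) * Polynomial.X *
        (1 + Polynomial.C α * Polynomial.X) ^ a *
        (1 + Polynomial.C β * Polynomial.X) ^ (b - 1))) := by
  rw [Pool.Agent.H97.VG.pD_mul, Pool.Agent.H49.CI.pD_exc, pD_pow, Pool.Agent.H97.VG.pD_add,
    pD_one, Pool.Agent.H97.VG.pD_mul, Pool.Agent.H97.VG.pD_C, Pool.Agent.H97.VG.pD_X]
  ring

theorem deriv_exc2 (f α β : L) (a b : ℕ) :
    Polynomial.X * Polynomial.derivative
      (Polynomial.C f * (1 + Polynomial.C α * Polynomial.X) ^ a *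
        (1 + Polynomial.C β * Polynomial.X) ^ b) =
      Polynomial.C α * (Polynomial.C f * (a : Polynomial L) * Polynomial.X *
        (1 + Polynomial.C α * Polynomial.X) ^ (a - 1) *
        (1 + Polynomial.C β * Polynomial.X) ^ b) +
      Polynomial.C β * (Polynomial.C f * (b : Polynomial L) * Polynomial.X *
        (1 + Polynomial.C α * Polynomial.X) ^ a *
        (1 + Polynomial.C β * Polynomial.X) ^ (b - 1)) := by
  rw [Polynomial.derivative_mul, Polynomial.derivative_mul, Polynomial.derivative_pow,
    Polynomial.derivative_pow]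
  simp only [Polynomial.derivative_C, map_add, Polynomial.derivative_one,
    Polynomial.derivative_mul, Polynomial.derivative_X, map_natCast]
  ring

/-- the multiple by the degree -/
theorem deg_exc2 (f α β : L) (a b : ℕ) :
    ((a : Polynomial L) + (b : Polynomial L)) * Polynomial.X *
      (Polynomial.C f * (1 + Polynomial.C α * Polynomial.X) ^ a *
        (1 + Polynomial.C β * Polynomial.X) ^ b) =
      (1 + Polynomial.C α * Polynomial.X) *
      (Polynomial.C f * (a : Polynomial L) * Polynomial.X *
        (1 + Polynomial.C α * Polynomial.X) ^ (a - 1) *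
        (1 + Polynomial.C β * Polynomial.X) ^ b) +
      (1 + Polynomial.C β * Polynomial.X) *
      (Polynomial.C f * (b : Polynomial L) * Polynomial.X *
        (1 + Polynomial.C α * Polynomial.X) ^ a *
        (1 + Polynomial.C β * Polynomial.X) ^ (b - 1)) := by
  have h1 : ∀ (γ : L) (m : ℕ), (m : Polynomial L) * (1 + Polynomial.C γ * Polynomial.X) ^ m =
      (m : Polynomial L) * ((1 + Polynomial.C γ * Polynomial.X) *
        (1 + Polynomial.C γ * Polynomial.X) ^ (m - 1)) := by
    intro γ m
    rcases Nat.eq_zero_or_pos m with h | h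
    · rw [h]; simp
    · obtain ⟨b, rfl⟩ : ∃ b, m = b + 1 := ⟨m - 1, by omega⟩
      rw [Nat.add_sub_cancel]
      ring
  linear_combination Polynomial.X * Polynomial.C f * (1 + Polynomial.C β * Polynomial.X) ^ b *
    h1 α a + Polynomial.X * Polynomial.C f * (1 + Polynomial.C α * Polynomial.X) ^ a * h1 β b

end

section
variable {L : Type} [Field L] {n : ℕ} {ι : Type} [Fintype ι]

open scoped Classical in
/-- the two vectors of the exceptional line -/
noncomputable def eJ (Z : Finset ι) (f : ι → L) (α β : L) (a b : ι → ℕ) (t : Fin 2) :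
    ι → Polynomial L := fun i => if i ∈ Z then 0 else if t = 0 then
    Polynomial.C (f i) * (a i : Polynomial L) * Polynomial.X *
      (1 + Polynomial.C α * Polynomial.X) ^ (a i - 1) *
      (1 + Polynomial.C β * Polynomial.X) ^ (b i) else
    Polynomial.C (f i) * (b i : Polynomial L) * Polynomial.X *
      (1 + Polynomial.C α * Polynomial.X) ^ (a i) *
      (1 + Polynomial.C β * Polynomial.X) ^ (b i - 1)

open scoped Classical in
/-- the vectors of the dimension count -/
noncomputable def vK (Z : Finset ι) (B : Finset (Fin n)) (F : Tup ι L n) (x y : Fin (n + 1) → L)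
    (f : ι → L) (α β : L) (a b : ι → ℕ) :
    ({b : Fin n // ¬ b ∈ B} ⊕ (Fin (n + 1) ⊕ ({i : ι // ¬ i ∈ Z} ⊕ Fin 2))) →
      (ι → Polynomial L)
  | Sum.inl c => fun i => res x y (pderiv c.1.succ (F i))
  | Sum.inr (Sum.inl c) => fun i => Polynomial.X * res x y (pderiv c (F i))
  | Sum.inr (Sum.inr (Sum.inl i0)) =>
    Pi.single i0.1 ((1 + Polynomial.C α * Polynomial.X) ^ a i0.1 *
      (1 + Polynomial.C β * Polynomial.X) ^ b i0.1)
  | Sum.inr (Sum.inr (Sum.inr t)) => eJ Z f α β a b t

open scoped Classical in
theorem sum_vK (Z : Finset ι) (B : Finset (Fin n)) (F : Tup ι L n) (x y : Fin (n + 1) → L)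
    (f : ι → L) (α β : L) (a b : ι → ℕ) (u v : Fin (n + 1) → L) (hu0 : u 0 = 0)
    (hu : ∀ c ∈ B, u c.succ = 0) (w : ι → L) (s : Fin 2 → L) (i : ι) :
    (∑ j, (Sum.elim (fun c : {b : Fin n // ¬ b ∈ B} => u c.1.succ)
      (Sum.elim (fun c : Fin (n + 1) => v c) (Sum.elim (fun i : {i : ι // ¬ i ∈ Z} => w i.1)
        fun t : Fin 2 => s t))) j • vK Z B F x y f α β a b j) i =
      res x y (dir u (F i)) + Polynomial.X * res x y (dir v (F i)) +
      ((if i ∈ Z then 0 else Polynomial.C (w i) * ((1 + Polynomial.C α * Polynomial.X) ^ a i *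
        (1 + Polynomial.C β * Polynomial.X) ^ b i)) +
      (Polynomial.C (s 0) * eJ Z f α β a b 0 i + Polynomial.C (s 1) * eJ Z f α β a b 1 i)) := by
  rw [Finset.sum_apply, Fintype.sum_sum_type, Fintype.sum_sum_type, Fintype.sum_sum_type]
  simp only [Sum.elim_inl, Sum.elim_inr, Pi.smul_apply, vK, Fin.sum_univ_two]
  rw [add_assoc]
  congr 1
  · rw [← Pool.Agent.H49.CI.sum_coord x y u hu0]
    have h1 := Fintype.sum_subtype_add_sum_subtype (fun b => b ∈ B)
      (fun b : Fin n => u b.succ • res x y (pderiv b.succ (F i)))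
    refine Eq.trans (Eq.symm ?_) h1
    convert zero_add _
    exact Finset.sum_eq_zero fun b _ => by rw [hu b.1 b.2, zero_smul]
  congr 1
  · rw [Pool.Agent.H52.VG.res_dir_smul, Finset.mul_sum]
    exact Finset.sum_congr rfl fun b _ => by rw [Polynomial.smul_eq_C_mul]; ring
  congr 1
  · by_cases hi : i ∈ Z
    · rw [if_pos hi]
      refine Finset.sum_eq_zero fun j _ => ?_
      have h2 : i ≠ j.1 := fun h => j.2 (by rw [← h]; exact hi)
      rw [Pi.single_eq_of_ne h2, smul_zero]
    · rw [if_neg hi, Finset.sum_eq_single (⟨i, hi⟩ : {i : ι // ¬ i ∈ Z})]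
      · rw [Pi.single_eq_same, Polynomial.smul_eq_C_mul]
      · intro j _ hj
        rw [Pi.single_eq_of_ne (fun h => hj (Subtype.ext h.symm)), smul_zero]
      · intro h
        exact absurd (Finset.mem_univ _) h
  · rw [Polynomial.smul_eq_C_mul, Polynomial.smul_eq_C_mul]

end

theorem pf_XMT (hXDD : Pool.Agent.H17.CI.T_XDD) : T_XMT := by
  intro k L _ _ _ _ n ι _ e Z c hn hc x y B hx0 hind hB hI α β a b hab hz ha
  classical
  have : CharZero L := charZero_of_injective_algebraMap (algebraMap k L).injective
  let F : Tup ι L n := upT L (frmT c)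
  let f : ι → L := fun i => eval x (F i)
  let v := vK Z B F x y f α β a b
  have hF : ∀ i, (F i).IsHomogeneous (e i + 1) := fun i => (frm_homog _).map _
  -- all families are combinations
  have hspan : ∀ P : ι → Polynomial L, (∀ i, (P i).natDegree ≤ e i + 1) →
      P ∈ Submodule.span L (Set.range v) := by
    intro P hP
    have hG : ∀ i, ∃ G : MvPolynomial (Fin (n + 1)) L, G.IsHomogeneous (e i + 1) ∧
        res x y G = P i := fun i => Pool.Agent.H52.VG.ro L n (e i + 1) x y hI (P i) (hP i)
    choose G hGh hGr using hG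
    obtain ⟨θ, hθc, hθx⟩ := hXDD k L _ _ c (fun b : B => x b.1.succ) hc hind
      (fun s => coeff (fs s.2.1) (G s.1))
    let τ : Op ℚ L n := (ratD θ, 0)
    have hθ : ∀ u, ratD θ u = θ u := fun u => rfl
    have hopV : ∀ z : Fin (n + 1) → L, opV τ z = fun i => θ (z i) := by
      intro z
      funext i
      unfold opV
      simp [τ, hθ]
    have hopF : ∀ i, opF τ (F i) = G i := by
      intro i
      unfold opF
      have h2 : cD τ.1 (F i) = G i := by
        refine cD_frm (ratD θ) _ _ (hGh i) fun M => ?_
        exact hθc ⟨i, M⟩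
      rw [h2]
      simp [τ]
    have hre : ∀ i, pD (ratD θ) (res x y (F i)) = P i + res x y (dir (fun j => θ (x j)) (F i)) +
        Polynomial.X * res x y (dir (fun j => θ (y j)) (F i)) := by
      intro i
      have h2 := Pool.Agent.H97.VG.re' τ (F i) x y
      rw [hopF, hGr, hopV, hopV] at h2
      exact h2
    have hsum : P = ∑ j, (Sum.elim (fun b : {b : Fin n // ¬ b ∈ B} =>
        (fun i => - θ (x i)) b.1.succ)
      (Sum.elim (fun b : Fin (n + 1) => (fun i => - θ (y i)) b)
        (Sum.elim (fun i : {i : ι // ¬ i ∈ Z} => (fun i => θ (f i)) i.1)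
        fun t : Fin 2 => ![θ α, θ β] t))) j • v j := by
      funext i
      have h3 := sum_vK Z B F x y f α β a b (fun i => - θ (x i)) (fun i => - θ (y i))
        (by simp only [hx0]; rw [Derivation.map_one_eq_zero, neg_zero])
        (fun b hb => by
          have := hθx ⟨b, hb⟩
          simp only at this
          rw [this, neg_zero]) (fun i => θ (f i)) ![θ α, θ β] i
      refine Eq.trans ?_ h3.symm
      have hneg : ∀ z : Fin (n + 1) → L, res x y (dir (fun i => - θ (z i)) (F i)) =
          - res x y (dir (fun i => θ (z i)) (F i)) := by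
        intro z
        rw [Pool.Agent.H52.VG.res_dir_smul, Pool.Agent.H52.VG.res_dir_smul,
          ← Finset.sum_neg_distrib]
        refine Finset.sum_congr rfl fun j _ => ?_
        rw [Polynomial.C_neg, neg_mul]
      rw [hneg, hneg]
      have e0 : (![θ α, θ β] : Fin 2 → L) 0 = θ α := rfl
      have e1 : (![θ α, θ β] : Fin 2 → L) 1 = θ β := rfl
      rw [e0, e1]
      unfold eJ
      by_cases hi : i ∈ Z
      · have h4 := hre i
        have h5 : res x y (F i) = 0 := hz i hi
        rw [h5, Pool.Agent.H97.VG.pD_zero] at h4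
        rw [if_pos hi, if_pos hi, if_pos hi]
        linear_combination -h4
      · have h4 := hre i
        have h5 : res x y (F i) = Polynomial.C (f i) *
            (1 + Polynomial.C α * Polynomial.X) ^ (a i) *
            (1 + Polynomial.C β * Polynomial.X) ^ (b i) := ha i hi
        rw [h5, pD_exc2, hθ, hθ, hθ] at h4
        rw [if_neg hi, if_neg hi, if_neg hi, if_pos rfl, if_neg (by decide)]
        linear_combination -h4
    rw [hsum]
    exact Submodule.sum_mem _ fun j _ => Submodule.smul_mem _ _
      (Submodule.subset_span (Set.mem_range_self j))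
  -- the dimension
  have hfin : Module.Finite L (Submodule.span L (Set.range v)) :=
    Module.Finite.span_of_finite L (Set.finite_range v)
  have hdim := card_le_of_mem (e := e) (Submodule.span L (Set.range v)) hspan
  -- the relations
  have hE : ∀ (z : Fin (n + 1) → L) (s : Fin 2 → L) (h : ∀ i,
      Polynomial.X * res x y (dir z (F i)) +
      (Polynomial.C (s 0) * eJ Z f α β a b 0 i + Polynomial.C (s 1) * eJ Z f α β a b 1 i) = 0),
      ∑ j, (Sum.elim (fun b : {b : Fin n // ¬ b ∈ B} =>
        (fun _ : Fin (n + 1) => (0 : L)) b.1.succ)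
      (Sum.elim (fun b : Fin (n + 1) => z b)
        (Sum.elim (fun i : {i : ι // ¬ i ∈ Z} => (fun _ => (0 : L)) i.1)
        fun t : Fin 2 => s t))) j • v j = 0 := by
    intro z s h
    funext i
    refine (sum_vK Z B F x y f α β a b (fun _ => 0) z rfl (fun _ _ => rfl) (fun _ => 0) s i).trans
      ?_
    have h1 : res x y (dir (fun _ => (0 : L)) (F i)) = 0 := by
      rw [Pool.Agent.H52.VG.res_dir_smul]
      refine Finset.sum_eq_zero fun j _ => ?_
      rw [Polynomial.C_0, zero_mul]
    rw [h1, Polynomial.C_0, zero_mul, ite_self, zero_add, zero_add, h i]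
    rfl
  have hr1 := hE y ![-α, -β] (by
    intro i
    have e0 : (![-α, -β] : Fin 2 → L) 0 = -α := rfl
    have e1 : (![-α, -β] : Fin 2 → L) 1 = -β := rfl
    rw [e0, e1, ← Pool.Agent.H52.VG.res_deriv]
    unfold eJ
    by_cases hi : i ∈ Z
    · have h5 : res x y (F i) = 0 := hz i hi
      rw [h5, if_pos hi, if_pos hi]
      simp
    · have h5 : res x y (F i) = Polynomial.C (f i) *
          (1 + Polynomial.C α * Polynomial.X) ^ (a i) *
          (1 + Polynomial.C β * Polynomial.X) ^ (b i) := ha i hi
      rw [h5, if_neg hi, if_neg hi, if_pos rfl, if_neg (by decide), deriv_exc2, Polynomial.C_neg,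
        Polynomial.C_neg]
      ring)
  have hr2 := hE x ![-1, -1] (by
    intro i
    have e0 : (![-1, -1] : Fin 2 → L) 0 = -1 := rfl
    have e1 : (![-1, -1] : Fin 2 → L) 1 = -1 := rfl
    rw [e0, e1]
    have h2 := Pool.Agent.H52.VG.res_euler x y (hF i)
    rw [← Pool.Agent.H52.VG.res_deriv] at h2
    unfold eJ
    by_cases hi : i ∈ Z
    · have h5 : res x y (F i) = 0 := hz i hi
      rw [h5, map_zero, mul_zero, mul_zero, add_zero] at h2
      rw [h2, if_pos hi, if_pos hi]
      simp
    · have h5 : res x y (F i) = Polynomial.C (f i) *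
          (1 + Polynomial.C α * Polynomial.X) ^ (a i) *
          (1 + Polynomial.C β * Polynomial.X) ^ (b i) := ha i hi
      have h6 : ((e i + 1 : ℕ) : Polynomial L) = (a i : Polynomial L) + (b i : Polynomial L) := by
        rw [← hab i hi, Nat.cast_add]
      rw [h5, deriv_exc2, h6] at h2
      have h7 := deg_exc2 (f i) α β (a i) (b i)
      rw [if_neg hi, if_neg hi, if_pos rfl, if_neg (by decide), Polynomial.C_neg,
        Polynomial.C_1]
      linear_combination Polynomial.X * h2 + h7)
  -- rank and nullity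
  let J := {b : Fin n // ¬ b ∈ B} ⊕ (Fin (n + 1) ⊕ ({i : ι // ¬ i ∈ Z} ⊕ Fin 2))
  let Φ : (J → L) →ₗ[L] (ι → Polynomial L) := Fintype.linearCombination L v
  have hrange : LinearMap.range Φ = Submodule.span L (Set.range v) :=
    Fintype.range_linearCombination L v
  have hrn := LinearMap.finrank_range_add_finrank_ker Φ
  rw [hrange, Module.finrank_fintype_fun_eq_card] at hrn
  have hcard : Fintype.card J ≤ Module.finrank L (Submodule.span L (Set.range v)) + 1 := by
    refine le_trans ?_ (Nat.add_le_add_right hdim 1)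
    show Fintype.card ({b : Fin n // ¬ b ∈ B} ⊕ (Fin (n + 1) ⊕ ({i : ι // ¬ i ∈ Z} ⊕ Fin 2))) ≤ _
    rw [Fintype.card_sum, Fintype.card_sum, Fintype.card_sum, Fintype.card_subtype_compl,
      Fintype.card_subtype_compl, Fintype.card_fin, Fintype.card_fin, Fintype.card_fin]
    have h1 : Fintype.card {b : Fin n // b ∈ B} = B.card := Fintype.card_coe B
    have h2 : Fintype.card {i : ι // i ∈ Z} = Z.card := Fintype.card_coe Z
    have h3 : Z.card ≤ Fintype.card ι := Finset.card_le_univ Z
    have h4 : ∑ i, (e i + 2) = ∑ i, (e i + 1) + Fintype.card ι := by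
      rw [Fintype.card_eq_sum_ones, ← Finset.sum_add_distrib]
    rw [h1, h2, h4]
    omega
  have hker : Module.finrank L (LinearMap.ker Φ) ≤ 1 := by omega
  let r : Fin 2 → LinearMap.ker Φ := ![⟨_, LinearMap.mem_ker.2
    ((Fintype.linearCombination_apply L v _).trans hr2)⟩, ⟨_, LinearMap.mem_ker.2
    ((Fintype.linearCombination_apply L v _).trans hr1)⟩]
  have hr : LinearIndependent L r := by
    rw [LinearIndependent.pair_iff]
    intro s t hst
    unfold Indep at hI
    rw [LinearIndependent.pair_iff] at hI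
    refine hI s t ?_
    funext j
    have h1 := congrFun (congrArg Subtype.val hst) (Sum.inr (Sum.inl j))
    exact h1
  have h5 := hr.fintype_card_le_finrank
  rw [Fintype.card_fin] at h5
  omega

end Pool.Agent.H18.VMP
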